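import Pool.Agent.W838.DC.Stm3
import Pool.Agent.Helper741.FiniteClass
import Pool.Agent.Helper741.Tits

/-! # DC-SYS1: integral geometric representation (helper398) -/

set_option autoImplicit false

namespace Pool.Agent.W398.DC

open Pool.Agent.W838.DC Pool.Agent.Helper741

variable {B : Type*} [Fintype B] [DecidableEq B] {M : CoxeterMatrix B}

/-- the cast -/
def kap (v : B → ℤ) : B → ℝ := fun i => (v i : ℝ)

lemma kap_inj {v w : B → ℤ} (h : kap v = kap w) : v = w := by
  funext i
  have h1 : (v i : ℝ) = (w i : ℝ) := congrFun h i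
  exact_mod_cast h1

omit [Fintype B] in
lemma kap_single (i : B) : kap (Pi.single i 1 : B → ℤ) = ee i := by
  funext j
  unfold kap
  by_cases h : j = i
  · subst h; simp
  · simp [h]

omit [Fintype B] in
lemma cart_symm (M : CoxeterMatrix B) (i j : B) : cart M i j = cart M j i := by
  unfold cart
  rw [M.symmetric i j]
  by_cases h : i = j
  · rw [if_pos h, if_pos h.symm]
  · rw [if_neg h, if_neg (Ne.symm h)]

omit [Fintype B] in
lemma cart_eq (hsl : ∀ i j, i ≠ j → M i j = 2 ∨ M i j = 3) (i j : B) :
    (cart M i j : ℝ) = -2 * cc M i j := by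
  unfold cart
  by_cases h : i = j
  · subst h
    rw [if_pos rfl, cc_self]
    norm_num
  · rw [if_neg h]
    rcases hsl i j h with h2 | h3
    · rw [if_neg (by omega)]
      unfold cc
      rw [h2]
      have : Real.pi / ((2 : ℕ) : ℝ) = Real.pi / 2 := by norm_num
      rw [this, Real.cos_pi_div_two]
      norm_num
    · rw [if_pos h3]
      unfold cc
      rw [h3]
      have : Real.pi / ((3 : ℕ) : ℝ) = Real.pi / 3 := by norm_num
      rw [this, Real.cos_pi_div_three]
      norm_num

lemma ipZ_cast (hsl : ∀ i j, i ≠ j → M i j = 2 ∨ M i j = 3) (a b : B → ℤ) :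
    (ipZ M a b : ℝ) = bil M (kap a) (kap b) := by
  unfold ipZ bil kap
  push_cast
  refine Finset.sum_congr rfl fun i _ => ?_
  rw [coroot_apply, Finset.mul_sum]
  refine Finset.sum_congr rfl fun j _ => ?_
  rw [cart_eq hsl]
  ring

lemma ipZ_single_cast (hsl : ∀ i j, i ≠ j → M i j = 2 ∨ M i j = 3) (v : B → ℤ) (i : B) :
    (ipZ M v (Pi.single i 1) : ℝ) = coroot M i (kap v) := by
  rw [ipZ_cast hsl, kap_single, bil_ee_right]

lemma ipZ_add (a b c : B → ℤ) : ipZ M (a + b) c = ipZ M a c + ipZ M b c := by
  unfold ipZ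
  rw [← Finset.sum_add_distrib]
  refine Finset.sum_congr rfl fun i _ => ?_
  rw [← Finset.sum_add_distrib]
  refine Finset.sum_congr rfl fun j _ => ?_
  rw [Pi.add_apply]
  ring

lemma ipZ_zero (c : B → ℤ) : ipZ M 0 c = 0 := by
  unfold ipZ
  simp

variable (M) in
/-- the integral reflection -/
def gi (i : B) : AddMonoid.End (B → ℤ) where
  toFun v := v - ipZ M v (Pi.single i 1) • (Pi.single i 1 : B → ℤ)
  map_zero' := by rw [ipZ_zero, zero_smul, sub_zero]
  map_add' a b := by
    rw [ipZ_add, add_smul]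
    abel

lemma gi_apply (i : B) (v : B → ℤ) :
    gi M i v = v - ipZ M v (Pi.single i 1) • (Pi.single i 1 : B → ℤ) := rfl

lemma kap_gi (hsl : ∀ i j, i ≠ j → M i j = 2 ∨ M i j = 3) (i : B) (v : B → ℤ) :
    kap (gi M i v) = sg M i (kap v) := by
  rw [gi_apply, sg_apply, ← ipZ_single_cast hsl, ← kap_single]
  funext j
  simp only [kap, Pi.sub_apply, Pi.smul_apply, smul_eq_mul]
  push_cast
  ring

omit [Fintype B] [DecidableEq B] in
lemma mulapp (f g : AddMonoid.End (B → ℤ)) (v : B → ℤ) : (f * g) v = f (g v) := rfl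

lemma kap_pow (hsl : ∀ i j, i ≠ j → M i j = 2 ∨ M i j = 3) (i j : B) (m : ℕ) (v : B → ℤ) :
    kap (((gi M i * gi M j) ^ m) v) = ((sg M i * sg M j) ^ m) (kap v) := by
  induction m generalizing v with
  | zero => rfl
  | succ m ih =>
    rw [pow_succ, pow_succ, mulapp, mulapp,
      Module.End.mul_apply, Module.End.mul_apply, ih, kap_gi hsl, kap_gi hsl]

lemma gi_liftable (hsl : ∀ i j, i ≠ j → M i j = 2 ∨ M i j = 3) : M.IsLiftable (gi M) := by
  intro i j
  apply AddMonoidHom.ext
  intro v
  apply kap_inj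
  change kap (((gi M i * gi M j) ^ M i j) v) = kap v
  rw [kap_pow hsl, sg_liftable M i j]
  rfl

theorem sys1 {B W : Type*} [Fintype B] [DecidableEq B] {M : CoxeterMatrix B} [Group W]
    (cs : CoxeterSystem M W) (hsl : ∀ i j, i ≠ j → M i j = 2 ∨ M i j = 3) : S_SYS1 cs := by
  set g : W →* AddMonoid.End (B → ℤ) := cs.lift ⟨gi M, gi_liftable hsl⟩ with hg
  have hgs : ∀ i, g (cs.simple i) = gi M i := by
    intro i
    rw [hg]
    exact cs.lift_apply_simple (gi_liftable hsl) i
  have hgeo : ∀ w v, kap (g w v) = geo cs w (kap v) := by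
    intro w
    induction w using cs.simple_induction_left with
    | one =>
      intro v
      rw [map_one, map_one]
      rfl
    | mul_simple_left w i ih =>
      intro v
      rw [map_mul, mulapp, hgs, kap_gi hsl, ih, map_mul, Module.End.mul_apply,
        geo_simple]
  refine ⟨g, ?_, ?_, ?_, ?_⟩
  · intro i v
    rw [hgs]
    rfl
  · intro w a b
    have h : (ipZ M (g w a) (g w b) : ℝ) = (ipZ M a b : ℝ) := by
      rw [ipZ_cast hsl, ipZ_cast hsl, hgeo, hgeo, bil_geo]
    exact_mod_cast h
  · intro w w' h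
    apply geo_injective cs
    apply LinearMap.pi_ext
    intro i x
    have h1 : (Pi.single i x : B → ℝ) = x • ee i := by
      funext j
      by_cases hj : j = i
      · subst hj; simp
      · simp [hj]
    rw [h1, map_smul, map_smul, ← kap_single, ← hgeo, ← hgeo, h]
  · intro w i
    have h1 := hgeo w (Pi.single i 1)
    rw [kap_single] at h1
    rcases cs.length_mul_simple w i with h | h
    · left
      refine ⟨?_, by omega⟩
      have h2 := geo_nonneg cs w i (by omega)
      rw [← h1] at h2
      intro j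
      have h3 := h2 j
      simp only [kap, Pi.zero_apply] at h3
      exact_mod_cast h3
    · right
      refine ⟨?_, by omega⟩
      have h2 := geo_nonpos cs w i (by omega)
      rw [← h1] at h2
      intro j
      have h3 := h2 j
      simp only [kap, Pi.zero_apply] at h3
      exact_mod_cast h3

end Pool.Agent.W398.DC
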